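import Pool.Agent.Work.MP_b44cb1_al.Full.L.LemL
import Pool.Agent.Work.MP_b44cb1_al.Full.Ty.Dich

/-!
# Block L: the interface `LemLp` of the assembly
-/

set_option autoImplicit false

namespace Pool.Agent.Work.MP_b44cb1_al

theorem lemLp_of_tp {G : Type*} [Group G] [Finite G] {h : ℕ} (HT : Tp h G) : LemLp h G := by
  intro P p n T hodd c e u A hun hA hce heu hne
  exact lem_L T hodd HT hun hA.1 hA.2.1 hA.2.2.1 hA.2.2.2.1 hA.2.2.2.2 hce heu hne

end Pool.Agent.Work.MP_b44cb1_al
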