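import Pool.Agent.Work.MP_b44cb1_al.Full.Kit.FrKit

/-!
# Block L: coprime action of a `b`-group on a group of order prime to `b`, by counting
-/

set_option autoImplicit false

namespace Pool.Agent.Work.MP_b44cb1_al.BL

open Subgroup
open scoped commutatorElement

/-- A `b`-group acting on a finite set of cardinality prime to `b` has a fixed point. -/
theorem fixpt {B α : Type*} [Group B] {b : ℕ} [Fact b.Prime] (hB : IsPGroup b B)
    (f : B →* Equiv.Perm α) (S : Set α) (hS : S.Finite) (hinv : ∀ g, ∀ x ∈ S, f g x ∈ S)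
    (hnd : ¬ b ∣ S.ncard) : ∃ x ∈ S, ∀ g, f g x = x := by
  letI : MulAction B α := MulAction.compHom α f
  have hsm : ∀ (g : B) (x : α), g • x = f g x := fun _ _ => rfl
  let T : SubMulAction B α := ⟨S, fun g {x} hx => hinv g x hx⟩
  haveI : Finite T := hS
  have h1 : ¬ b ∣ Nat.card T := hnd
  obtain ⟨x, hx⟩ := hB.nonempty_fixed_point_of_prime_not_dvd_card T h1
  refine ⟨x, x.2, fun g => ?_⟩
  have h2 := congrArg Subtype.val (hx g)
  exact h2

variable {G : Type*} [Group G]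

/-- The action of a subgroup by conjugation. -/
def cjHom (B : Subgroup G) : B →* Equiv.Perm G := (MulAut.toPerm G).comp (MulAut.conj.comp B.subtype)

theorem cjHom_apply (B : Subgroup G) (b : B) (x : G) : cjHom B b x = b * x * (b : G)⁻¹ := rfl

/-- The action of a subgroup on a `G`-set. -/
def actHom {α : Type*} [MulAction G α] (B : Subgroup G) : B →* Equiv.Perm α :=
  (MulAction.toPermHom G α).comp B.subtype

theorem actHom_apply {α : Type*} [MulAction G α] (B : Subgroup G) (b : B) (x : α) :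
    actHom B b x = (b : G) • x := rfl

theorem ncard_orbit_dvd [Finite G] {α : Type*} [MulAction G α] (W : Subgroup G) (x : α) :
    ({y : α | ∃ w ∈ W, y = w • x} : Set α).ncard ∣ Nat.card W := by
  have h1 : ({y : α | ∃ w ∈ W, y = w • x} : Set α) = MulAction.orbit W x := by
    ext y
    rw [MulAction.mem_orbit_iff]
    constructor
    · rintro ⟨w, hw, rfl⟩
      exact ⟨⟨w, hw⟩, rfl⟩
    · rintro ⟨w, rfl⟩
      exact ⟨w, w.2, rfl⟩
  rw [h1, ← MulAction.index_stabilizer]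
  exact Subgroup.index_dvd_card _

/-- K1 for a `b`-group: a fixed point in a `W`-orbit. -/
theorem glau [Finite G] {α : Type*} [MulAction G α] {b : ℕ} (hb : b.Prime) (W B : Subgroup G)
    (hB : IsPGroup b B) (hW : ¬ b ∣ Nat.card W) (hn : Nz B W) (x : α)
    (hx : ∀ g ∈ B, ∃ w ∈ W, g • x = w • x) : ∃ u ∈ W, ∀ g ∈ B, g • (u • x) = u • x := by
  haveI : Fact b.Prime := ⟨hb⟩
  have hfin : ({y : α | ∃ w ∈ W, y = w • x} : Set α).Finite := by
    have h1 : ({y : α | ∃ w ∈ W, y = w • x} : Set α) = Set.range fun w : W => (w : G) • x := by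
      ext y
      constructor
      · rintro ⟨w, hw, rfl⟩
        exact ⟨⟨w, hw⟩, rfl⟩
      · rintro ⟨w, rfl⟩
        exact ⟨w, w.2, rfl⟩
    rw [h1]
    exact Set.finite_range _
  obtain ⟨y, ⟨u, hu, rfl⟩, hy⟩ := fixpt hB (actHom (α := α) B) {y : α | ∃ w ∈ W, y = w • x} hfin (by
    rintro g _ ⟨w, hw, rfl⟩
    obtain ⟨w', hw', h1⟩ := hx g g.2
    refine ⟨g * w * (g : G)⁻¹ * w', mul_mem (hn g g.2 w hw) hw', ?_⟩
    rw [actHom_apply, mul_smul, ← h1, smul_smul, smul_smul]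
    congr 1
    group) (fun h => hW (h.trans (ncard_orbit_dvd W x)))
  exact ⟨u, hu, fun g hg => hy ⟨g, hg⟩⟩

/-- K2 for a `b`-group: representatives centralised by `B`. -/
theorem fixrep [Finite G] {α : Type*} [MulAction G α] {b : ℕ} (hb : b.Prime) (W B : Subgroup G)
    (hB : IsPGroup b B) (hW : ¬ b ∣ Nat.card W) (hn : Nz B W) (x : α)
    (hx : ∀ g ∈ B, g • x = x) {u : G} (hu : u ∈ W) (hxu : ∀ g ∈ B, g • (u • x) = u • x) :
    ∃ c ∈ W, (∀ g ∈ B, g * c = c * g) ∧ u • x = c • x := by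
  haveI : Fact b.Prime := ⟨hb⟩
  have hcard : ({c : G | c ∈ W ∧ c • x = u • x} : Set G).ncard ∣ Nat.card W := by
    have h1 : ({c : G | c ∈ W ∧ c • x = u • x} : Set G) =
        (fun s => u * s) '' ((W ⊓ MulAction.stabilizer G x : Subgroup G) : Set G) := by
      ext c
      constructor
      · rintro ⟨hc, hc2⟩
        have h3 : u⁻¹ * c ∈ W := W.mul_mem (W.inv_mem hu) hc
        have h4 : (u⁻¹ * c) • x = x := by rw [mul_smul, hc2, inv_smul_smul]
        exact ⟨u⁻¹ * c, ⟨h3, h4⟩, mul_inv_cancel_left u c⟩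
      · rintro ⟨s, ⟨hs, hs2⟩, rfl⟩
        refine ⟨mul_mem hu hs, ?_⟩
        have h2 : s • x = x := hs2
        show (u * s) • x = _
        rw [mul_smul, h2]
    rw [h1, Set.ncard_image_of_injective _ (mul_right_injective u)]
    exact Subgroup.card_dvd_of_le inf_le_left
  obtain ⟨c, ⟨hc, hc2⟩, hfix⟩ := fixpt hB (cjHom B) {c : G | c ∈ W ∧ c • x = u • x}
    (Set.toFinite _) (by
      rintro g c ⟨hc, hc2⟩
      refine ⟨hn g g.2 c hc, ?_⟩
      rw [cjHom_apply, mul_smul, mul_smul]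
      have h1 : (g : G)⁻¹ • x = x := by rw [inv_smul_eq_iff, hx g g.2]
      rw [h1, hc2, hxu g g.2]) (fun h => hW (h.trans hcard))
  refine ⟨c, hc, fun g hg => ?_, hc2.symm⟩
  have := hfix ⟨g, hg⟩
  rw [cjHom_apply] at this
  exact mul_inv_eq_iff_eq_mul.1 this

/-- K3 for an `a`-group: lifting of fixed points. -/
theorem lift [Finite G] {a : ℕ} (ha : a.Prime) (P F A : Subgroup G) (hA : IsPGroup a A)
    (hFa : ¬ a ∣ Nat.card F) (hFP : F ≤ P) (hPF : Nz P F) (hAP : Nz A P) (hAF : Nz A F) {x : G}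
    (hx : x ∈ P) (hxF : ∀ g ∈ A, ⁅g, x⁆ ∈ F) :
    ∃ y ∈ P, (∀ g ∈ A, g * y = y * g) ∧ x⁻¹ * y ∈ F := by
  haveI : Fact a.Prime := ⟨ha⟩
  have hcard : ({y : G | x⁻¹ * y ∈ F} : Set G).ncard = Nat.card F := by
    have h1 : ({y : G | x⁻¹ * y ∈ F} : Set G) = (fun s => x * s) '' (F : Set G) := by
      ext y
      constructor
      · intro hy
        exact ⟨x⁻¹ * y, hy, by simp⟩
      · rintro ⟨s, hs, rfl⟩
        show x⁻¹ * (x * s) ∈ F
        rw [inv_mul_cancel_left]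
        exact hs
    rw [h1, Set.ncard_image_of_injective _ (mul_right_injective x)]
    rfl
  obtain ⟨y, hy, hfix⟩ := fixpt hA (cjHom A) {y : G | x⁻¹ * y ∈ F} (Set.toFinite _) (by
      intro g y hy
      have hy' : x⁻¹ * y ∈ F := hy
      show x⁻¹ * (cjHom A g y) ∈ F
      rw [cjHom_apply]
      have h1 : x⁻¹ * (g * y * (g : G)⁻¹) = (x⁻¹ * ⁅(g : G), x⁆ * x) * (g * (x⁻¹ * y) * (g : G)⁻¹) := by
        rw [commutatorElement_def]
        group
      rw [h1]
      refine mul_mem ?_ (hAF g g.2 _ hy')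
      have := hPF x⁻¹ (inv_mem hx) _ (hxF g g.2)
      rwa [inv_inv] at this) (by rw [hcard]; exact hFa)
  have hy' : x⁻¹ * y ∈ F := hy
  refine ⟨y, ?_, fun g hg => ?_, hy'⟩
  · have := mul_mem hx (hFP hy')
    rwa [mul_inv_cancel_left] at this
  · have := hfix ⟨g, hg⟩
    rw [cjHom_apply] at this
    exact mul_inv_eq_iff_eq_mul.1 this

theorem not_dvd_card [Finite G] {p a : ℕ} (hp : p.Prime) (ha : a.Prime) (hne : a ≠ p)
    {P : Subgroup G} (hP : IsPGroup p P) : ¬ a ∣ Nat.card P := by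
  haveI : Fact p.Prime := ⟨hp⟩
  obtain ⟨k, hk⟩ := IsPGroup.iff_card.1 hP
  rw [hk]
  intro h
  exact hne ((Nat.prime_dvd_prime_iff_eq ha hp).1 (ha.dvd_of_dvd_pow h))

/-- K4: `[P, A] ≤ [[P, A], A]`. -/
theorem commN [Finite G] {p a : ℕ} (hp : p.Prime) (ha : a.Prime) (hne : a ≠ p)
    (P A : Subgroup G) (hP : IsPGroup p P) (hA : IsPGroup a A) (hn : Nz A P) :
    ⁅P, A⁆ ≤ ⁅⁅P, A⁆, A⁆ := by
  have hle : ⁅P, A⁆ ≤ P := comm_le_left hn
  have hPn : Nz P ⁅P, A⁆ := by
    -- `⁅P, A⁆` is normal in `P ⊔ A`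
    rw [nz_iff]
    exact Subgroup.normalizer_commutator_ge_left P A
  have hAn : Nz A ⁅P, A⁆ := by
    rw [nz_iff]
    exact Subgroup.normalizer_commutator_ge_right P A
  rw [commutator_le]
  intro x hx g hg
  obtain ⟨y, hy, hyA, hxy⟩ := lift ha P ⁅P, A⁆ A hA
    (not_dvd_card hp ha hne (hP.to_le hle)) hle hPn hn hAn hx (fun g hg => by
      rw [← commutatorElement_inv]
      exact inv_mem (commutator_mem_commutator hx hg))
  -- `x = y * t`, `t ∈ ⁅P, A⁆`
  obtain ⟨t, ht, rfl⟩ : ∃ t ∈ ⁅P, A⁆, x = y * t := ⟨y⁻¹ * x, by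
    have := inv_mem hxy
    simpa using this, by simp⟩
  have h1 : ⁅y * t, g⁆ = y * ⁅t, g⁆ * y⁻¹ := by
    rw [commutatorElement_def, commutatorElement_def]
    have h2 : y⁻¹ * g⁻¹ = g⁻¹ * y⁻¹ := by
      rw [← mul_inv_rev, ← mul_inv_rev, hyA g hg]
    calc y * t * g * (y * t)⁻¹ * g⁻¹ = y * t * g * t⁻¹ * (y⁻¹ * g⁻¹) := by group
      _ = y * t * g * t⁻¹ * (g⁻¹ * y⁻¹) := by rw [h2]
      _ = _ := by group
  rw [h1]
  have h3 : Nz (zpowers y) ⁅⁅P, A⁆, A⁆ := by
    have h4 : Nz (zpowers y) ⁅P, A⁆ := hPn.mono (by rwa [zpowers_le])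
    have h5 : Nz (zpowers y) A := by
      intro z hz d hd
      obtain ⟨k, rfl⟩ := mem_zpowers_iff.1 hz
      have h6 : Commute y d := (hyA d hd).symm
      have h7 : y ^ k * d = d * y ^ k := h6.zpow_left k
      rw [h7, mul_inv_cancel_right]
      exact hd
    exact nz_comm h4 h5
  exact h3 y (mem_zpowers y) _ (commutator_mem_commutator ht hg)

/-- K5: an `a`-group acting trivially modulo the Frattini subgroup acts trivially. -/
theorem trivFr [Finite G] {p a : ℕ} (hp : p.Prime) (ha : a.Prime) (hne : a ≠ p)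
    (P A : Subgroup G) (hP : IsPGroup p P) (hA : IsPGroup a A) (hn : Nz A P)
    (h : ∀ g ∈ A, ∀ x ∈ P, ⁅g, x⁆ ∈ Fr p P) : ∀ g ∈ A, ∀ x ∈ P, g * x = x * g := by
  have hR : P ⊓ centralizer (A : Set G) = P := by
    refine frGen hp hP inf_le_left fun x hx => ?_
    obtain ⟨y, hy, hyA, hxy⟩ := lift ha P (Fr p P) A hA
      (not_dvd_card hp ha hne (hP.to_le (fr_le p P))) (fr_le p P) (nz_fr _ (nz_self P)) hn (nz_fr _ hn)
      hx (fun g hg => h g hg x hx)
    have h1 : y ∈ P ⊓ centralizer (A : Set G) :=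
      ⟨hy, Subgroup.mem_centralizer_iff.2 fun g hg => hyA g hg⟩
    have h2 := mul_mem (mem_sup_left (T := Fr p P) h1) (mem_sup_right (inv_mem hxy))
    have e : y * (x⁻¹ * y)⁻¹ = x := by group
    rwa [e] at h2
  intro g hg x hx
  rw [← hR] at hx
  exact Subgroup.mem_centralizer_iff.1 hx.2 g hg

end Pool.Agent.Work.MP_b44cb1_al.BL
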