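import Pool.Agent.Work.MP_b44cb1_al.Full.L.WT

/-!
# Block L: commutators act trivially on a section of prime order
-/

set_option autoImplicit false

namespace Pool.Agent.Work.MP_b44cb1_al.BL

open Subgroup
open scoped commutatorElement

variable {G : Type*} [Group G]

theorem cyc_pow [Finite G] {q : ℕ} (hq : q.Prime) {H A : Subgroup G} (hHA : H ≤ A)
    (hi : H.relIndex A = q) (hAH : Nz A H) {k : G} (hkA : ∀ x ∈ A, k * x * k⁻¹ ∈ A)
    (hkH : ∀ x ∈ H, k * x * k⁻¹ ∈ H) :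
    ∃ m : ℤ, ∀ x ∈ A, (k * x * k⁻¹)⁻¹ * x ^ m ∈ H := by
  have hN : (H.subgroupOf A).Normal := hAH.subgroupOf_normal
  have hcard : Nat.card (A ⧸ H.subgroupOf A) = q := hi
  haveI : Fact q.Prime := ⟨hq⟩
  haveI : IsCyclic (A ⧸ H.subgroupOf A) := isCyclic_of_prime_card hcard
  let f : A →* A :=
    { toFun := fun x => ⟨k * x * k⁻¹, hkA x x.2⟩
      map_one' := Subtype.ext (by simp)
      map_mul' := fun x y => Subtype.ext (by simp [mul_assoc]) }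
  have hf : H.subgroupOf A ≤ (H.subgroupOf A).comap f := by
    intro x hx
    rw [mem_comap, mem_subgroupOf]
    exact hkH _ (mem_subgroupOf.1 hx)
  obtain ⟨m, hm⟩ := MonoidHom.map_cyclic (QuotientGroup.map _ _ f hf)
  refine ⟨m, fun x hx => ?_⟩
  have h1 := hm (QuotientGroup.mk' _ ⟨x, hx⟩)
  have h2 : QuotientGroup.mk' (H.subgroupOf A) (f ⟨x, hx⟩) =
      QuotientGroup.mk' (H.subgroupOf A) (⟨x, hx⟩ ^ m) := by
    rw [map_zpow]
    exact h1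
  rw [QuotientGroup.mk'_apply, QuotientGroup.mk'_apply, QuotientGroup.eq, mem_subgroupOf] at h2
  exact h2

/-- Commutators of elements normalising `A` and `H`, `|A : H|` prime, act trivially on `A/H`. -/
theorem cyc_comm [Finite G] {q : ℕ} (hq : q.Prime) {H A : Subgroup G} (hHA : H ≤ A)
    (hi : H.relIndex A = q) (hAH : Nz A H) {k k' : G} (hkA : cj k A = A) (hkH : cj k H = H)
    (hkA' : cj k' A = A) (hkH' : cj k' H = H) : ∀ a ∈ A, ⁅⁅k, k'⁆, a⁆ ∈ H := by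
  have hcj : ∀ {g : G} {X : Subgroup G}, cj g X = X → ∀ x ∈ X, g * x * g⁻¹ ∈ X := by
    intro g X h x hx
    have := conj_mem_cj (g := g) hx
    rwa [h] at this
  have hcj' : ∀ {g : G} {X : Subgroup G}, cj g X = X → ∀ x ∈ X, g⁻¹ * x * g ∈ X := by
    intro g X h x hx
    rw [← h, mem_cj] at hx
    exact hx
  obtain ⟨m, hm⟩ := cyc_pow hq hHA hi hAH (hcj hkA) (hcj hkH)
  obtain ⟨m', hm'⟩ := cyc_pow hq hHA hi hAH (hcj hkA') (hcj hkH')
  have hN : (H.subgroupOf A).Normal := hAH.subgroupOf_normal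
  -- work in the quotient
  let π := QuotientGroup.mk' (H.subgroupOf A)
  have hπ : ∀ (x y : G) (hx : x ∈ A) (hy : y ∈ A), π ⟨x, hx⟩ = π ⟨y, hy⟩ ↔ x⁻¹ * y ∈ H := by
    intro x y hx hy
    rw [QuotientGroup.mk'_apply, QuotientGroup.mk'_apply, QuotientGroup.eq, mem_subgroupOf]
    rfl
  have h1 : ∀ (x : G) (hx : x ∈ A), π ⟨k * x * k⁻¹, hcj hkA x hx⟩ = π ⟨x, hx⟩ ^ m := by
    intro x hx
    have := (hπ _ _ (hcj hkA x hx) (zpow_mem hx m)).2 (hm x hx)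
    rw [this, ← map_zpow]
    rfl
  have h2 : ∀ (x : G) (hx : x ∈ A), π ⟨k' * x * k'⁻¹, hcj hkA' x hx⟩ = π ⟨x, hx⟩ ^ m' := by
    intro x hx
    have := (hπ _ _ (hcj hkA' x hx) (zpow_mem hx m')).2 (hm' x hx)
    rw [this, ← map_zpow]
    rfl
  intro a ha
  let x : G := k⁻¹ * (k'⁻¹ * a * k') * k
  have hx : x ∈ A := hcj' hkA _ (hcj' hkA' _ ha)
  have e1 : ⁅k, k'⁆ * a * ⁅k, k'⁆⁻¹ = k * (k' * x * k'⁻¹) * k⁻¹ := by
    simp only [x, commutatorElement_def]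
    group
  have e2 : a = k' * (k * x * k⁻¹) * k'⁻¹ := by
    simp only [x]
    group
  have hA1 : k * (k' * x * k'⁻¹) * k⁻¹ ∈ A := hcj hkA _ (hcj hkA' _ hx)
  have hA2 : k' * (k * x * k⁻¹) * k'⁻¹ ∈ A := hcj hkA' _ (hcj hkA _ hx)
  have h3 : π ⟨k' * (k * x * k⁻¹) * k'⁻¹, hA2⟩ = π ⟨k * (k' * x * k'⁻¹) * k⁻¹, hA1⟩ := by
    rw [h1 _ (hcj hkA' _ hx), h2 _ (hcj hkA _ hx), h1 x hx, h2 x hx, ← zpow_mul, ← zpow_mul,
      mul_comm]
  have h4 := (hπ _ _ hA2 hA1).1 h3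
  rw [← e1, ← e2] at h4
  have h5 := hAH a ha _ h4
  have e3 : a * (a⁻¹ * (⁅k, k'⁆ * a * ⁅k, k'⁆⁻¹)) * a⁻¹ = ⁅⁅k, k'⁆, a⁆ := by
    rw [commutatorElement_def ⁅k, k'⁆ a]
    group
  rwa [e3] at h5

end Pool.Agent.Work.MP_b44cb1_al.BL
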