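import Mathlib

/-!
# Block L: an abelian group of exponent `q` acting without fixed points has a hyperplane with
nontrivial fixed points
-/

set_option autoImplicit false

namespace Pool.Agent.Work.MP_b44cb1_al.BL

open Subgroup

variable {L V : Type*} [Group L] [CommGroup V] [MulDistribMulAction L V]

theorem nm_fix {q : ℕ} (he : ∀ (a : L) (v : V), a ^ q • v = v) (x : L) (w : V) :
    x • (∏ i ∈ Finset.range q, x ^ i • w) = ∏ i ∈ Finset.range q, x ^ i • w := by
  rw [Finset.smul_prod']
  simp only [smul_smul, ← pow_succ']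
  have h1 := Finset.prod_range_succ (fun i => x ^ i • w) q
  have h2 := Finset.prod_range_succ' (fun i => x ^ i • w) q
  rw [h1, he, pow_zero, one_smul] at h2
  exact (mul_right_cancel h2).symm

theorem nm_comm {q : ℕ} (hc : ∀ (a b : L) (v : V), a • b • v = b • a • v) (x u : L) (w : V)
    (hu : u • w = w) :
    u • (∏ i ∈ Finset.range q, x ^ i • w) = ∏ i ∈ Finset.range q, x ^ i • w := by
  rw [Finset.smul_prod']
  refine Finset.prod_congr rfl fun i _ => ?_
  rw [hc, hu]

theorem hyp_abs [Finite L] [Nontrivial V] {q : ℕ} (hq : q.Prime)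
    (hc : ∀ (a b : L) (v : V), a • b • v = b • a • v)
    (he : ∀ (a : L) (v : V), a ^ q • v = v) (ht : ∀ v : V, v ^ q = 1 → v = 1)
    (hf : ∀ v : V, (∀ a : L, a • v = v) → v = 1) :
    ∃ U : Subgroup L, U.index = q ∧ (∃ v : V, v ≠ 1 ∧ ∀ u ∈ U, u • v = v) ∧
      ∀ a : L, (∀ v : V, a • v = v) → a ∈ U := by
  classical
  obtain ⟨U, ⟨w, hw1, hwU⟩, hmax⟩ := Set.exists_max_image
    {U : Subgroup L | ∃ v : V, v ≠ 1 ∧ ∀ u ∈ U, u • v = v}
    (fun U => Nat.card U) (Set.toFinite _) (by
      obtain ⟨v, hv⟩ := exists_ne (1 : V)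
      refine ⟨⊥, v, hv, fun u hu => ?_⟩
      rw [Subgroup.mem_bot] at hu
      rw [hu, one_smul])
  -- maximality
  have hmx : ∀ (x : L) (v : V), x ∉ U → x • v = v → (∀ u ∈ U, u • v = v) → v = 1 := by
    intro x v hx hxv hUv
    by_contra hv
    have h1 : U ⊔ zpowers x ∈ {U : Subgroup L | ∃ v : V, v ≠ 1 ∧ ∀ u ∈ U, u • v = v} := by
      refine ⟨v, hv, ?_⟩
      have h2 : U ⊔ zpowers x ≤ MulAction.stabilizer L v := by
        refine sup_le (fun u hu => hUv u hu) ?_
        rw [zpowers_le]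
        exact hxv
      exact fun u hu => h2 hu
    have h2 := hmax _ h1
    have h3 : U = U ⊔ zpowers x := Subgroup.eq_of_le_of_card_ge le_sup_left h2
    apply hx
    rw [h3]
    exact mem_sup_right (mem_zpowers x)
  have hker : ∀ a : L, (∀ v : V, a • v = v) → a ∈ U := by
    intro a ha
    by_contra haU
    exact hw1 (hmx a w haU (ha w) hwU)
  have hN : ∀ x, x ∉ U → ∀ v : V, (∀ u ∈ U, u • v = v) →
      ∏ i ∈ Finset.range q, x ^ i • v = 1 := by
    intro x hx v hv
    refine hmx x _ hx (nm_fix he x v) fun u hu => nm_comm hc x u v (hv u hu)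
  have hqU : ∀ a : L, a ^ q ∈ U := fun a => hker _ (he a)
  have hcU : ∀ a b : L, a * b * a⁻¹ * b⁻¹ ∈ U := fun a b => hker _ fun v => by
    rw [mul_smul, mul_smul, mul_smul, hc b a⁻¹, smul_inv_smul, smul_inv_smul]
  have hUn : U.Normal := ⟨fun u hu g => by
    have := mul_mem (hcU g u) hu
    rwa [inv_mul_cancel_right] at this⟩
  have hUt : U ≠ ⊤ := by
    rintro h
    exact hw1 (hf w fun a => hwU a (h ▸ mem_top a))
  obtain ⟨b, hb⟩ : ∃ b, b ∉ U := by
    by_contra hcon
    push Not at hcon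
    exact hUt (eq_top_iff.2 fun x _ => hcon x)
  have hbp : ∀ i, 0 < i → i < q → b ^ i ∉ U := by
    intro i hi0 hiq hbi
    apply hb
    have hcop : Nat.Coprime i q := Nat.Coprime.symm (Nat.coprime_of_lt_prime (by omega) hiq hq)
    have h1 := Nat.exists_mul_mod_eq_one_of_coprime hcop hq.one_lt
    obtain ⟨m, -, hm⟩ := h1
    have h2 : i * m = q * (i * m / q) + 1 := by
      conv_lhs => rw [← Nat.div_add_mod (i * m) q]
      rw [hm]
    have h3 : b ^ (i * m) ∈ U := by rw [pow_mul]; exact pow_mem hbi m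
    rw [h2, pow_add, pow_one, pow_mul] at h3
    exact (U.mul_mem_cancel_left (pow_mem (hqU b) _)).1 h3
  have htop : U ⊔ zpowers b = ⊤ := by
    by_contra hne
    obtain ⟨a, ha⟩ : ∃ a, a ∉ U ⊔ zpowers b := by
      by_contra hcon
      push Not at hcon
      exact hne (eq_top_iff.2 fun x _ => hcon x)
    apply hw1
    apply ht
    have h1 : ∀ j, a * b ^ j ∉ U := by
      intro j hj
      apply ha
      have h2 := mul_mem (mem_sup_left (T := zpowers b) hj)
        (inv_mem (mem_sup_right (S := U) (pow_mem (mem_zpowers b) j)))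
      rwa [mul_inv_cancel_right] at h2
    have h2 : ∏ j ∈ Finset.range q, ∏ i ∈ Finset.range q, (a * b ^ j) ^ i • w = 1 :=
      Finset.prod_eq_one fun j _ => hN _ (h1 j) w hwU
    have hab : ∀ (i j : ℕ) (v : V), (a * b ^ j) ^ i • v = a ^ i • (b ^ i) ^ j • v := by
      intro i j v
      induction i with
      | zero => simp
      | succ i ih =>
        rw [pow_succ', mul_smul, ih, mul_smul, hc (b ^ j) (a ^ i), smul_smul a (a ^ i), ← pow_succ',
          smul_smul (b ^ j), ← pow_mul, ← pow_mul, ← pow_add]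
        congr 3
        ring
    rw [Finset.prod_comm] at h2
    have h3 : ∀ i ∈ Finset.range q, ∏ j ∈ Finset.range q, (a * b ^ j) ^ i • w =
        if i = 0 then w ^ q else 1 := by
      intro i hi
      rw [Finset.mem_range] at hi
      split_ifs with h0
      · rw [h0]
        simp
      · have h4 := hN _ (hbp i (by omega) hi) w hwU
        calc ∏ j ∈ Finset.range q, (a * b ^ j) ^ i • w
            = ∏ j ∈ Finset.range q, a ^ i • (b ^ i) ^ j • w :=
              Finset.prod_congr rfl fun j _ => hab i j w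
          _ = a ^ i • ∏ j ∈ Finset.range q, (b ^ i) ^ j • w := Finset.smul_prod'.symm
          _ = 1 := by rw [h4, smul_one]
    rw [Finset.prod_congr rfl h3, Finset.prod_ite_eq' (Finset.range q) 0 (fun _ => w ^ q)] at h2
    rwa [if_pos (Finset.mem_range.2 hq.pos)] at h2
  refine ⟨U, ?_, ⟨w, hw1, hwU⟩, hker⟩
  have hz : zpowers (QuotientGroup.mk' U b) = ⊤ := by
    rw [← MonoidHom.map_zpowers, eq_top_iff]
    intro y _
    obtain ⟨x, rfl⟩ := QuotientGroup.mk'_surjective U y
    have hx : x ∈ U ⊔ zpowers b := htop ▸ mem_top x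
    rw [← SetLike.mem_coe, Subgroup.normal_mul U (zpowers b)] at hx
    obtain ⟨u, hu, z, hz, rfl⟩ := hx
    refine ⟨z, hz, ?_⟩
    simp only [map_mul]
    rw [QuotientGroup.mk'_apply, QuotientGroup.mk'_apply, (QuotientGroup.eq_one_iff u).2 hu,
      one_mul]
  have ho : orderOf (QuotientGroup.mk' U b) = q := by
    have h1 : (QuotientGroup.mk' U b) ^ q = 1 := by
      rw [← map_pow]
      exact (QuotientGroup.eq_one_iff _).2 (hqU b)
    rcases (Nat.dvd_prime hq).1 (orderOf_dvd_of_pow_eq_one h1) with h2 | h2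
    · exfalso
      rw [orderOf_eq_one_iff] at h2
      exact hb ((QuotientGroup.eq_one_iff b).1 h2)
    · exact h2
  rw [Subgroup.index, ← ho, ← Nat.card_zpowers, hz]
  exact Nat.card_congr (topEquiv (G := L ⧸ U)).toEquiv.symm

end Pool.Agent.Work.MP_b44cb1_al.BL
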