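import Pool.Agent.Work.MP_b44cb1_al.Full.L.WT
import Pool.Agent.Work.MP_b44cb1_al.Full.L.HypAbs

/-!
# Block L: hyperplanes with nontrivial fixed points on `P / Fr P`
-/

set_option autoImplicit false

namespace Pool.Agent.Work.MP_b44cb1_al.BL

open Subgroup
open scoped commutatorElement

variable {G : Type*} [Group G]

/-- Conjugation by an element of `A` on `P`. -/
def cjR {A P : Subgroup G} (hn : Nz A P) (a : A) : P →* P where
  toFun x := ⟨a * x * (a : G)⁻¹, hn a a.2 x x.2⟩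
  map_one' := Subtype.ext (by simp)
  map_mul' x y := Subtype.ext (by simp [mul_assoc])

theorem exists_hyp [Finite G] {p q : ℕ} (hp : p.Prime) (hq : q.Prime) (hne : q ≠ p)
    {P A K : Subgroup G} (hP : IsPGroup p P) (hA : IsPGroup q A) (hn : Nz A P) (hKA : K ≤ A)
    (hKc : ∀ k ∈ K, ∀ x ∈ P, k * x = x * k) (hc : ∀ a ∈ A, ∀ b ∈ A, ⁅a, b⁆ ∈ K)
    (he : ∀ a ∈ A, a ^ q ∈ K) (hPne : ¬ P ≤ Fr p P)
    (hf : ∀ x ∈ P, (∀ a ∈ A, ⁅a, x⁆ ∈ Fr p P) → x ∈ Fr p P) :
    ∃ U : Subgroup G, K ≤ U ∧ U ≤ A ∧ U.relIndex A = q ∧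
      ¬ P ⊓ centralizer (U : Set G) ≤ Fr p P := by
  classical
  have hFn : ((Fr p P).subgroupOf P).Normal := (nz_fr _ (nz_self P)).subgroupOf_normal
  let F' := (Fr p P).subgroupOf P
  have hmk : ∀ x y : P, (QuotientGroup.mk' F' x = QuotientGroup.mk' F' y) ↔
      (x : G)⁻¹ * y ∈ Fr p P := by
    intro x y
    rw [QuotientGroup.mk'_apply, QuotientGroup.mk'_apply, QuotientGroup.eq, mem_subgroupOf]
    rfl
  have hmk1 : ∀ x : P, QuotientGroup.mk' F' x = 1 ↔ (x : G) ∈ Fr p P := by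
    intro x
    rw [QuotientGroup.mk'_apply, QuotientGroup.eq_one_iff, mem_subgroupOf]
  have hsurj := QuotientGroup.mk'_surjective F'
  let iC : CommGroup (P ⧸ F') :=
    { (inferInstance : Group (P ⧸ F')) with
      mul_comm := by
        intro a b
        obtain ⟨x, rfl⟩ := hsurj a
        obtain ⟨y, rfl⟩ := hsurj b
        rw [← commutatorElement_eq_one_iff_mul_comm, ← map_commutatorElement, hmk1]
        exact comm_mem_fr x.2 y.2 }
  have hcF : ∀ a : A, F' ≤ F'.comap (cjR hn a) := by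
    intro a x hx
    rw [mem_comap, mem_subgroupOf]
    exact nz_fr _ hn a a.2 _ (mem_subgroupOf.1 hx)
  let iA : MulDistribMulAction A (P ⧸ F') :=
    { smul := fun a v => QuotientGroup.map F' F' (cjR hn a) (hcF a) v
      one_smul := by
        intro v
        obtain ⟨x, rfl⟩ := hsurj v
        show QuotientGroup.mk' F' (cjR hn 1 x) = _
        congr 1
        exact Subtype.ext (by simp [cjR])
      mul_smul := by
        intro a b v
        obtain ⟨x, rfl⟩ := hsurj v
        show QuotientGroup.mk' F' (cjR hn (a * b) x) = QuotientGroup.mk' F' (cjR hn a (cjR hn b x))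
        congr 1
        exact Subtype.ext (by simp [cjR, mul_assoc])
      smul_mul := fun a v w => map_mul _ v w
      smul_one := fun a => map_one _ }
  have hsm : ∀ (a : A) (x : P), a • QuotientGroup.mk' F' x = QuotientGroup.mk' F' (cjR hn a x) :=
    fun a x => rfl
  have hfix : ∀ (a : A) (x : P), a • QuotientGroup.mk' F' x = QuotientGroup.mk' F' x ↔
      ⁅(a : G), (x : G)⁆ ∈ Fr p P := by
    intro a x
    rw [hsm, ← mul_inv_eq_one, ← map_inv, ← map_mul, hmk1]
    rfl
  have hnt : Nontrivial (P ⧸ F') := by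
    rw [QuotientGroup.nontrivial_iff]
    intro h
    rw [subgroupOf_eq_top] at h
    exact hPne h
  have hKt : ∀ a : A, (a : G) ∈ K → ∀ v : P ⧸ F', a • v = v := by
    intro a ha v
    obtain ⟨x, rfl⟩ := hsurj v
    rw [hfix, commutatorElement_eq_one_iff_mul_comm.2 (hKc a ha x x.2)]
    exact one_mem _
  obtain ⟨U, hU1, ⟨v, hv1, hvU⟩, hU3⟩ := hyp_abs (L := A) (V := P ⧸ F') hq (by
      intro a b v
      have h1 := hKt (a * b * a⁻¹ * b⁻¹) (hc a a.2 b b.2) (b • a • v)
      have h2 : (a * b * a⁻¹ * b⁻¹) • b • a • v = a • b • v := by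
        rw [smul_smul, smul_smul, smul_smul]
        congr 1
        group
      rw [← h2, h1]) (fun a v => hKt (a ^ q) (he a a.2) v) (by
      intro v hv
      obtain ⟨x, rfl⟩ := hsurj v
      rw [← map_pow, hmk1] at hv
      rw [hmk1]
      have h1 : (x : G) ^ p ∈ Fr p P := pow_mem_fr x.2
      have hcop : IsCoprime (q : ℤ) (p : ℤ) :=
        Nat.isCoprime_iff_coprime.2 ((Nat.coprime_primes hq hp).2 hne)
      obtain ⟨s, t, hst⟩ := hcop
      have h2 : (x : G) = ((x : G) ^ q) ^ s * ((x : G) ^ p) ^ t := by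
        rw [← zpow_natCast, ← zpow_natCast, ← zpow_mul, ← zpow_mul, ← zpow_add]
        conv_lhs => rw [← zpow_one (x : G), ← hst]
        congr 1
        ring
      rw [h2]
      exact mul_mem (zpow_mem hv s) (zpow_mem h1 t)) (by
      intro v hv
      obtain ⟨x, rfl⟩ := hsurj v
      rw [hmk1]
      exact hf x x.2 fun a ha => (hfix ⟨a, ha⟩ x).1 (hv ⟨a, ha⟩))
  refine ⟨U.map A.subtype, ?_, map_subtype_le U, ?_, ?_⟩
  · intro k hk
    exact ⟨⟨k, hKA hk⟩, hU3 _ (hKt ⟨k, hKA hk⟩ hk), rfl⟩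
  · rw [← hU1]
    show ((U.map A.subtype).comap A.subtype).index = U.index
    rw [comap_map_eq_self_of_injective A.subtype_injective]
  · intro h
    obtain ⟨x, rfl⟩ := hsurj v
    have hUA : U.map A.subtype ≤ A := map_subtype_le U
    obtain ⟨y, hy, hyU, hxy⟩ := lift hq P (Fr p P) (U.map A.subtype) (hA.to_le hUA)
      (not_dvd_card hp hq hne (hP.to_le (fr_le p P))) (fr_le p P) (nz_fr _ (nz_self P))
      (hn.mono hUA) ((nz_fr _ hn).mono hUA) x.2 (by
        rintro _ ⟨g, hg, rfl⟩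
        exact (hfix g x).1 (hvU g hg))
    apply hv1
    rw [hmk1]
    have h1 : y ∈ Fr p P := h ⟨hy, mem_centralizer_iff.2 fun g hg => hyU g hg⟩
    have h2 := mul_mem h1 (inv_mem hxy)
    have e : y * ((x : G)⁻¹ * y)⁻¹ = x := by group
    rwa [e] at h2

end Pool.Agent.Work.MP_b44cb1_al.BL
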