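import Pool.Agent.Work.MP_b44cb1_al.Full.L.Orb
import Pool.Agent.Work.MP_b44cb1_al.Full.L.Cyc
import Pool.Agent.Work.MP_b44cb1_al.LemAb

/-!
# Block L: lemma (L), existence of links of the first kind
-/

set_option autoImplicit false

namespace Pool.Agent.Work.MP_b44cb1_al

open Subgroup
open scoped commutatorElement

variable {G : Type*} [Group G] {P : ℕ → Subgroup G} {p : ℕ → ℕ} {n : ℕ}

namespace BL

/-- The chain `A_0 = A`, `A_(k+1) = ⁅P (c+k+1), A_k⁆`. -/
def chn (P : ℕ → Subgroup G) (c : ℕ) (A : Subgroup G) : ℕ → Subgroup G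
  | 0 => A
  | (k + 1) => ⁅P (c + k + 1), chn P c A k⁆

theorem chn_le (T : WTow P p n) {c : ℕ} {A : Subgroup G} (hA : A ≤ P c) :
    ∀ k, c + k < n → chn P c A k ≤ P (c + k) := by
  intro k
  induction k with
  | zero => exact fun _ => hA
  | succ k ih =>
    intro hk
    exact comm_le_left ((p_nz T (by omega) hk).mono (ih (by omega)))

theorem chn_nfr [Finite G] (T : MTow P p n) {c : ℕ} {A : Subgroup G} (hA : A ≤ P c)
    (hAF : ¬ A ≤ Fr (p c) (P c)) :
    ∀ k, c + k < n → ¬ chn P c A k ≤ Fr (p (c + k)) (P (c + k)) := by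
  intro k
  induction k with
  | zero => exact fun _ => hAF
  | succ k ih =>
    intro hk hle
    have hk' : c + k < n := by omega
    have hk1 : c + k + 1 < n := hk
    have h1 := chn_le T.toWTow hA k hk'
    refine ih hk' (le_trans ?_ (T.kfr (c + k) hk1))
    have h2 := trivFr (T.prime _ hk1) (T.prime _ hk') (p_ne T (Nat.lt_succ_self (c + k)) hk1)
      (P (c + k + 1)) (chn P c A k) (T.pgrp _ hk1) ((T.pgrp _ hk').to_le h1)
      ((p_nz T.toWTow (Nat.le_succ _) hk1).mono h1) (fun g hg x hx => by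
        apply comm_symm_mem
        exact hle (commutator_mem_commutator hx hg))
    exact fun g hg => ⟨h1 hg, mem_centralizer_iff.2 fun x hx => (h2 g hg x hx).symm⟩

theorem chn_comm [Finite G] (T : MTow P p n) {c : ℕ} {A : Subgroup G} (hA : A ≤ P c) (k : ℕ)
    (hk : c + k + 1 < n) : chn P c A (k + 1) ≤ ⁅chn P c A (k + 1), chn P c A k⁆ := by
  have hk' : c + k < n := by omega
  have h1 := chn_le T.toWTow hA k hk'
  exact commN (T.prime _ hk) (T.prime _ hk') (p_ne T (Nat.lt_succ_self (c + k)) hk)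
    (P (c + k + 1)) (chn P c A k) (T.pgrp _ hk) ((T.pgrp _ hk').to_le h1)
    ((p_nz T.toWTow (Nat.le_succ _) hk).mono h1)

theorem main [Finite G] (T : MTow P p n) (hodd : ∀ i < n, 2 < p i) {h : ℕ} (HT : Tp h G)
    {b c e : ℕ} {A : Subgroup G} (hbn : b + 1 < n) (hA : A ≤ P b) (hK : Kr P b ≤ A)
    (hAn : Nz (Gs P (b + 1)) A) (hc : ⁅A, P b⁆ ≤ Kr P b) (he : ∀ x ∈ A, x ^ p b ∈ Kr P b)
    (hce : c + 2 * h + 3 ≤ e) (heb : e < b) (hne : ¬ ⁅A, P e⁆ ≤ Kr P b) :
    ∃ U ∈ OmL P p b A, ∀ v ∈ P c, cj v U = U → v ∈ Fr (p c) (P c) := by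
  have hbn' : b < n := by omega
  have hcn : c < n := by omega
  have hen : e < n := by omega
  have hKn : Nz (Gs P (b + 1)) (Kr P b) := kr_nz T.toWTow hbn
  have hAK : ¬ A ≤ Kr P b := by
    intro h1
    apply hne
    exact (commutator_mono h1 le_rfl).trans (comm_le_left (hKn.mono (le_gs P (by omega))))
  obtain ⟨U, hU, horb⟩ := orb T hodd hbn (by omega : c < b) hAn
    (omL_nonempty T hbn hA hK hAn hc he hAK)
  have hfix := ab_fix T hbn' (by omega : c < b) U horb
  refine ⟨U, hU, ?_⟩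
  by_contra hcon
  have hSne : ¬ stabSub (P c) U ≤ Fr (p c) (P c) := by
    intro h1
    exact hcon fun v hv hvU => h1 ⟨hv, hvU⟩
  have hSP : stabSub (P c) U ≤ P c := fun y hy => hy.1
  set N := NN P (c + 1) b with hN
  have hNnz : Nz (Gs P b) N := nn_nz T.toWTow (by omega) (by omega)
  have hNle : N ≤ Gs P b := nn_le P (c + 1) b
  set F := fixSub (Gs P b) N U with hF
  have hFN : ∀ x ∈ N, ∀ g ∈ F, x * g * x⁻¹ ∈ F := by
    intro x hx g hg
    refine ⟨mul_mem (mul_mem (hNle hx) hg.1) (inv_mem (hNle hx)), fun m hm => ?_⟩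
    have h1 := hg.2 (x⁻¹ * m) (mul_mem (inv_mem hx) hm)
    calc cj (x * g * x⁻¹) (cj m U) = cj x (cj g (cj (x⁻¹ * m) U)) := by
          rw [← cj_mul, ← cj_mul, ← cj_mul]; congr 1; group
      _ = cj x (cj (x⁻¹ * m) U) := by rw [h1]
      _ = cj m U := by rw [← cj_mul]; congr 1; group
  set C := F ⊓ N with hC
  have hCN : C ≤ N := inf_le_right
  have hCn : Nz N C := fun g hg d hd => ⟨hFN g hg d hd.1, nz_self N g hg d hd.2⟩
  let B := chn P c (stabSub (P c) U)
  have hBle : ∀ k, c + k < n → B k ≤ P (c + k) := chn_le T.toWTow hSP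
  have hBF : ∀ k, c + k < b → B k ≤ F := by
    intro k
    induction k with
    | zero =>
      intro _ y hy
      exact ⟨le_gs P (by omega) (hSP hy), fun m hm => hfix y hy.1 hy.2 m hm⟩
    | succ k ih =>
      intro hk
      have h3 := ih (by omega)
      show ⁅P (c + k + 1), B k⁆ ≤ F
      rw [commutator_le]
      intro x hx g hg
      have hxN : x ∈ N := le_nn P (by omega) hk hx
      exact mul_mem (hFN x hxN g (h3 hg)) (inv_mem (h3 hg))
  have hBC : ∀ k, c + k + 1 < b → B (k + 1) ≤ C := by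
    intro k hk
    refine le_inf (hBF (k + 1) hk) ((hBle (k + 1) (by omega)).trans ?_)
    exact le_nn P (by omega) hk
  have hch := resI_chain (e - c - 1) (fun l => B (l + 1)) C (fun l hl => hBC l (by omega))
    (fun l hl => chn_comm T hSP (l + 1) (by omega))
  have hidx : e - c - 1 + 1 = e - c := by omega
  have hch2 : B (e - c) ≤ res^[2 * h + 1 + 1] C := by
    have h1 : B (e - c - 1 + 1) ≤ res^[2 * h + 1 + 1] C := hch.trans (resI_anti C (by omega))
    rwa [hidx] at h1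
  set R := res^[2 * h + 1] C with hR
  have hRle : ∀ g ∈ Gs P b, R ≤ cj g C := fun g hg =>
    HT C N g hCN hCn (cj_eq_of_mem hNnz hg)
  -- `P b` fixes `U`
  have hPbU : ∀ v ∈ P b, cj v U = U := by
    have h1 : Nz (P b) U := by
      intro v hv a ha
      have h2 : ⁅a, v⁆ ∈ Kr P b := hc (commutator_mem_commutator (hU.2.1 ha) hv)
      have h3 : ⁅v, a⁆ ∈ U := hU.1 (comm_symm_mem h2)
      have h4 := mul_mem h3 ha
      have e1 : ⁅v, a⁆ * a = v * a * v⁻¹ := by
        rw [commutatorElement_def]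
        group
      rwa [e1] at h4
    exact fun v hv => cj_eq_of_mem h1 hv
  have hRfix : ∀ k ∈ R, ∀ g ∈ Gs P (b + 1), cj k (cj g U) = cj g U := by
    intro k hk g hg
    obtain ⟨g', hg', v, hv, rfl⟩ := mem_gs_succ T.toWTow hbn' hg
    rw [cj_mul g' v, hPbU v hv]
    have h1 := mem_cj.1 (hRle g' hg' hk)
    have h2 : cj (g'⁻¹ * k * g') U = U := by
      have := h1.1.2 1 (one_mem _)
      rwa [cj_one] at this
    calc cj k (cj g' U) = cj g' (cj (g'⁻¹ * k * g') U) := by
          rw [← cj_mul, ← cj_mul]; congr 1; group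
      _ = cj g' U := by rw [h2]
  have hRG : R ≤ Gs P b := (resI_le C _).trans (hCN.trans hNle)
  -- the core `J`
  let J : Subgroup G :=
    { carrier := {x | x ∈ A ∧ ∀ g ∈ Gs P (b + 1), x ∈ cj g U}
      one_mem' := ⟨one_mem _, fun g _ => one_mem _⟩
      mul_mem' := fun hx hy => ⟨mul_mem hx.1 hy.1, fun g hg => mul_mem (hx.2 g hg) (hy.2 g hg)⟩
      inv_mem' := fun hx => ⟨inv_mem hx.1, fun g hg => inv_mem (hx.2 g hg)⟩ }
  have hJA : J ≤ A := fun x hx => hx.1
  have hJU : J ≤ U := by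
    intro x hx
    have := hx.2 1 (one_mem _)
    rwa [cj_one] at this
  have hJn : Nz (Gs P (b + 1)) J := by
    intro g hg d hd
    refine ⟨hAn g hg d hd.1, fun g' hg' => ?_⟩
    have h1 := hd.2 (g⁻¹ * g') (mul_mem (inv_mem hg) hg')
    have h2 := conj_mem_cj (g := g) h1
    rwa [← cj_mul, mul_inv_cancel_left] at h2
  have hJK : J ≤ Kr P b := by
    have h4 := hU.2.2.2
    obtain ⟨w, hw, hwF⟩ := SetLike.not_le_iff_exists.1 h4
    refine irr_cen T hbn (hJA.trans hA) hJn hw.1 hwF fun a ha => ?_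
    have h5 : a * w = w * a := (mem_centralizer_iff.1 hw.2) a (hJU ha)
    rw [commutatorElement_eq_one_iff_mul_comm.2 h5.symm]
    exact one_mem _
  -- `⁅R, R⁆` acts trivially on `A / K`
  have hAG : A ≤ Gs P (b + 1) := hA.trans (le_gs P (Nat.lt_succ_self b))
  have hGG : Gs P b ≤ Gs P (b + 1) := gs_mono P (Nat.le_succ b)
  have hRR : ⁅R, R⁆ ≤ cenMod (Gs P b) A J (hJn.mono hGG) := by
    rw [commutator_le]
    intro k hk k' hk'
    have hkG := hRG hk
    have hkG' := hRG hk'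
    refine ⟨?_, fun a ha => ?_⟩
    · rw [commutatorElement_def]
      exact mul_mem (mul_mem (mul_mem hkG hkG') (inv_mem hkG)) (inv_mem hkG')
    · have hin : ∀ g ∈ Gs P (b + 1), ⁅⁅k, k'⁆, a⁆ ∈ cj g U := by
        intro g hg
        have hgU := omL_cj T.toWTow hbn hAn hU hg
        refine cyc_comm (T.prime b hbn') hgU.2.1 hgU.2.2.1 ?_ (cj_eq_of_mem hAn (hGG hkG))
          (hRfix k hk g hg) (cj_eq_of_mem hAn (hGG hkG')) (hRfix k' hk' g hg) a ha
        -- `A` normalises `cj g U`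
        intro x hx d hd
        have h2 : ⁅d, x⁆ ∈ Kr P b := hc (commutator_mem_commutator (hgU.2.1 hd) (hA hx))
        have h3 : ⁅x, d⁆ ∈ cj g U := hgU.1 (comm_symm_mem h2)
        have h4 := mul_mem h3 hd
        have e1 : ⁅x, d⁆ * d = x * d * x⁻¹ := by
          rw [commutatorElement_def]
          group
        rwa [e1] at h4
      refine ⟨?_, hin⟩
      have h6 := hin 1 (one_mem _)
      rw [cj_one] at h6
      exact hU.2.1 h6
  have hBR : B (e - c) ≤ ⁅R, R⁆ := by
    refine hch2.trans ?_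
    rw [Function.iterate_succ_apply']
    have h1 := res_le_lcs R 1
    rwa [lcs_succ, lcs_zero] at h1
  have hec : c + (e - c) = e := by omega
  have hBe : B (e - c) ≤ P e := by
    have h1 := hBle (e - c) (by omega)
    rwa [hec] at h1
  have hBnf : ¬ B (e - c) ≤ Fr (p e) (P e) := by
    have h1 := chn_nfr T hSP hSne (e - c) (by omega)
    rwa [hec] at h1
  have hGe : Gs P e ≤ Gs P (b + 1) := gs_mono P (by omega)
  have hPe : P e ≤ Gs P (b + 1) := le_gs P (by omega)
  have hBX : B (e - c) ≤ cenMod (P e) A (Kr P b) (hKn.mono hPe) := by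
    intro x hx
    exact ⟨hBe hx, fun a ha => hJK ((hRR (hBR hx)).2 a ha)⟩
  rcases T.irr e hen (cenMod (P e) A (Kr P b) (hKn.mono hPe)) cenMod_le
    (cenMod_nz _ (T.norm e hen) (hAn.mono hGe) (hKn.mono hGe)) with h1 | h1
  · apply hne
    rw [commutator_le]
    intro a ha x hx
    rw [← h1] at hx
    exact comm_symm_mem (hx.2 a ha)
  · exact hBnf (hBX.trans h1)

end BL

/-- Lemma (L): a layer `u` such that `P_e` acts nontrivially on the central elementary abelian
section `A / K_(u-1)`, `e` far above `c`, is linked to `c`. -/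
theorem lem_L [Finite G] (T : MTow P p n) (hodd : ∀ i < n, 2 < p i) {h : ℕ} (HT : Tp h G)
    {c u e : ℕ} {A : Subgroup G} (hun : u < n) (hA : A ≤ P (u - 1)) (hK : Kr P (u - 1) ≤ A)
    (hAn : Nz (Gs P u) A) (hc : ⁅A, P (u - 1)⁆ ≤ Kr P (u - 1))
    (he : ∀ x ∈ A, x ^ (p (u - 1)) ∈ Kr P (u - 1)) (hce : c + 2 * h + 3 ≤ e) (heu : e + 2 ≤ u)
    (hne : ¬ ⁅A, P e⁆ ≤ Kr P (u - 1)) : ∃ U, HLink P p c u A U := by
  obtain ⟨b, rfl⟩ : ∃ b, u = b + 1 := ⟨u - 1, by omega⟩
  obtain ⟨U, hU, hst⟩ := BL.main T hodd HT hun hA hK hAn hc he hce (by omega) hne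
  exact ⟨U, ⟨by omega, hA, hU.1, hAn, hc, he, hU.2.1, hU.2.2.1, hU.2.2.2, hst⟩⟩

end Pool.Agent.Work.MP_b44cb1_al
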