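import Pool.Agent.Work.MP_b44cb1_al.Full.L.Hyp
import Pool.Agent.Work.MP_b44cb1_al.Full.Kit.BlockN
import Pool.Agent.Work.MP_b44cb1_al.AbOrb
import Pool.Agent.Work.MP_b44cb1_al.AbFix

/-!
# Block L: the set of hyperplanes, and a hyperplane with small stabiliser
-/

set_option autoImplicit false

namespace Pool.Agent.Work.MP_b44cb1_al.BL

open Subgroup
open scoped commutatorElement

variable {G : Type*} [Group G] {P : ℕ → Subgroup G} {p : ℕ → ℕ} {n : ℕ}

/-- The hyperplanes of `A / K_b` with nontrivial fixed points on `V_(b+1)`. -/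
def OmL (P : ℕ → Subgroup G) (p : ℕ → ℕ) (b : ℕ) (A : Subgroup G) : Set (Subgroup G) :=
  {U | Kr P b ≤ U ∧ U ≤ A ∧ U.relIndex A = p b ∧
    ¬ P (b + 1) ⊓ centralizer (U : Set G) ≤ Fr (p (b + 1)) (P (b + 1))}

theorem omL_nonempty [Finite G] (T : MTow P p n) {b : ℕ} (hb : b + 1 < n) {A : Subgroup G}
    (hA : A ≤ P b) (hK : Kr P b ≤ A) (hAn : Nz (Gs P (b + 1)) A) (hc : ⁅A, P b⁆ ≤ Kr P b)
    (he : ∀ x ∈ A, x ^ p b ∈ Kr P b) (hne : ¬ A ≤ Kr P b) : (OmL P p b A).Nonempty := by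
  have hb' : b < n := by omega
  obtain ⟨U, h1, h2, h3, h4⟩ := exists_hyp (T.prime _ hb) (T.prime b hb')
    (p_ne T (Nat.lt_succ_self b) hb) (P := P (b + 1)) (A := A) (K := Kr P b) (T.pgrp _ hb)
    ((T.pgrp b hb').to_le hA) ((p_nz T.toWTow (Nat.le_succ b) hb).mono hA) hK
    (fun k hk x hx => ((mem_centralizer_iff.1 hk.2) x hx).symm)
    (fun x hx y hy => hc (commutator_mem_commutator hx (hA hy))) he
    (fr_ne (T.prime _ hb) (T.pgrp _ hb) (T.nontriv _ hb)) (by
      intro x hx hxA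
      by_contra hxF
      exact hne (irr_cen T hb hA hAn hx hxF fun a ha => comm_symm_mem (hxA a ha)))
  exact ⟨U, h1, h2, h3, h4⟩

theorem cj_centralizer (g : G) (U : Subgroup G) :
    cj g (centralizer (U : Set G)) = centralizer (cj g U : Set G) := by
  ext x
  rw [mem_cj, mem_centralizer_iff, mem_centralizer_iff]
  constructor
  · intro h y hy
    have h1 : y ∈ cj g U := hy
    rw [mem_cj] at h1
    have h2 := h _ h1
    have h3 := congrArg (fun z => g * z * g⁻¹) h2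
    have e1 : g * (g⁻¹ * y * g * (g⁻¹ * x * g)) * g⁻¹ = y * x := by group
    have e2 : g * (g⁻¹ * x * g * (g⁻¹ * y * g)) * g⁻¹ = x * y := by group
    rwa [e1, e2] at h3
  · intro h y hy
    have h1 := h (g * y * g⁻¹) (conj_mem_cj hy)
    have h3 := congrArg (fun z => g⁻¹ * z * g) h1
    have e1 : g⁻¹ * (g * y * g⁻¹ * x) * g = y * (g⁻¹ * x * g) := by group
    have e2 : g⁻¹ * (x * (g * y * g⁻¹)) * g = g⁻¹ * x * g * y := by group
    rwa [e1, e2] at h3

theorem relIndex_cj (g : G) (U A : Subgroup G) : (cj g U).relIndex (cj g A) = U.relIndex A := by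
  unfold cj
  exact relIndex_map_map_of_injective _ _ (MulAut.conj g).injective

theorem omL_cj (T : WTow P p n) {b : ℕ} (hb : b + 1 < n) {A U : Subgroup G}
    (hAn : Nz (Gs P (b + 1)) A) (hU : U ∈ OmL P p b A) {g : G} (hg : g ∈ Gs P (b + 1)) :
    cj g U ∈ OmL P p b A := by
  obtain ⟨h1, h2, h3, h4⟩ := hU
  have eK := cj_eq_of_mem (kr_nz T hb) hg
  have eA := cj_eq_of_mem hAn hg
  refine ⟨?_, ?_, ?_, ?_⟩
  · rw [← eK]; exact cj_mono h1
  · rw [← eA]; exact cj_mono h2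
  · have := relIndex_cj g U A
    rw [eA] at this
    rw [this, h3]
  · intro h
    apply h4
    have eP := cj_eq_of_mem (T.norm _ hb) hg
    have eF := cj_eq_of_mem (nz_fr (p (b + 1)) (T.norm _ hb)) hg
    rw [← cj_le_cj (g := g), cj_inf, cj_centralizer, eP, eF]
    exact h

theorem glau_cj [Finite G] {b : ℕ} (hb : b.Prime) (W B U : Subgroup G)
    (hB : IsPGroup b B) (hW : ¬ b ∣ Nat.card W) (hn : Nz B W)
    (hx : ∀ g ∈ B, ∃ w ∈ W, cj g U = cj w U) : ∃ u ∈ W, ∀ g ∈ B, cj g (cj u U) = cj u U := by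
  let _ : MulAction G (Subgroup G) := { smul := cj, one_smul := cj_one, mul_smul := cj_mul }
  exact glau hb W B hB hW hn U hx

theorem fixrep_cj [Finite G] {b : ℕ} (hb : b.Prime) (W B U : Subgroup G)
    (hB : IsPGroup b B) (hW : ¬ b ∣ Nat.card W) (hn : Nz B W)
    (hx : ∀ g ∈ B, cj g U = U) {u : G} (hu : u ∈ W) (hxu : ∀ g ∈ B, cj g (cj u U) = cj u U) :
    ∃ c ∈ W, (∀ g ∈ B, g * c = c * g) ∧ cj u U = cj c U := by
  let _ : MulAction G (Subgroup G) := { smul := cj, one_smul := cj_one, mul_smul := cj_mul }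
  exact fixrep hb W B hB hW hn U hx hu hxu

theorem block_cj [Finite G] {e b : ℕ} (he : e.Prime)
    (hb : b.Prime) (he2 : e ≠ 2) (hb2 : b ≠ 2) (hne : b ≠ e) (W B U : Subgroup G)
    (hW : IsPGroup e W) (hB : IsPGroup b B) (hn : Nz B W) (hx : ∀ g ∈ B, cj g U = U) :
    ∃ z ∈ W, ∀ g ∈ B, cj g (cj z U) = cj z U → ∀ u ∈ W, cj g (cj u U) = cj u U := by
  have : Fact b.Prime := ⟨hb⟩
  obtain ⟨k, hk⟩ := IsPGroup.iff_card.1 hB
  refine blockN_cj he he2 W B U hW hB.isNilpotent ?_ ?_ hn hx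
  · rw [hk]
    exact (hb.odd_of_ne_two hb2).pow
  · exact not_dvd_card hb he hne.symm hB

theorem orb [Finite G] (T : MTow P p n) (hodd : ∀ i < n, 2 < p i) {b c : ℕ} (hbn : b + 1 < n)
    (hcb : c < b) {A : Subgroup G} (hAn : Nz (Gs P (b + 1)) A) (hO : (OmL P p b A).Nonempty) :
    ∃ U ∈ OmL P p b A, ∀ e, c < e → e < b → ∀ y ∈ P c, cj y U = U →
      ∀ v ∈ P e, cj y (cj v U) = cj v U := by
  have hcn : c < n := by omega
  obtain ⟨U, hU, hmin⟩ := WellFounded.has_min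
    (measure fun U : Subgroup G => ({y : G | y ∈ P c ∧ cj y U = U} : Set G).ncard).wf
    (OmL P p b A) hO
  refine ⟨U, hU, ?_⟩
  intro e hce heb
  have hen : e < n := by omega
  have hYW : Nz (P c) (P e) := p_nz T.toWTow hce.le hen
  set Y₁ := orbSub (P e) (P c) U hYW with hY₁
  have hY₁Y : Y₁ ≤ P c := fun y hy => hy.1
  have hpY : IsPGroup (p c) Y₁ := (T.pgrp c hcn).to_le hY₁Y
  have hnd : ¬ p c ∣ Nat.card (P e) := nd T hce.ne' hen hcn le_rfl
  obtain ⟨u, hu, huf⟩ := glau_cj (T.prime c hcn) (P e) Y₁ U hpY hnd (hYW.mono hY₁Y)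
    (fun y hy => hy.2)
  obtain ⟨z, hz, hzf⟩ := block_cj (T.prime e hen) (T.prime c hcn) (hodd e hen).ne'
    (hodd c hcn).ne' (p_ne T hce hen) (P e) Y₁ (cj u U) (T.pgrp e hen) hpY (hYW.mono hY₁Y) huf
  have hzu : z * u ∈ P e := mul_mem hz hu
  have hU'' : cj (z * u) U ∈ OmL P p b A := omL_cj T.toWTow hbn hAn hU (le_gs P (by omega) hzu)
  have key : ∀ y ∈ P c, cj y (cj (z * u) U) = cj (z * u) U → ∀ v ∈ P e,
      cj y (cj v U) = cj v U := by
    intro y hy hyf v hv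
    have hy1 : y ∈ Y₁ := ⟨hy, _, mul_mem (inv_mem (hYW y hy _ hzu)) hzu, orb_of_fix hYW hy hzu hyf⟩
    have h1 := hzf y hy1 (by rw [← cj_mul z u]; exact hyf) (v * u⁻¹) (mul_mem hv (inv_mem hu))
    rw [← cj_mul (v * u⁻¹) u, inv_mul_cancel_right] at h1
    exact h1
  have hsub : ({y : G | y ∈ P c ∧ cj y (cj (z * u) U) = cj (z * u) U} : Set G) ⊆
      {y : G | y ∈ P c ∧ cj y U = U} := by
    rintro y ⟨hy, hyf⟩
    refine ⟨hy, ?_⟩
    have := key y hy hyf 1 (one_mem _)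
    rwa [cj_one] at this
  have hle : ({y : G | y ∈ P c ∧ cj y U = U} : Set G).ncard ≤
      ({y : G | y ∈ P c ∧ cj y (cj (z * u) U) = cj (z * u) U} : Set G).ncard := by
    have h1 := hmin _ hU''
    exact not_lt.1 h1
  have heq := Set.eq_of_subset_of_ncard_le hsub hle (Set.toFinite _)
  intro y hy hyU v hv
  have h1 : y ∈ ({y : G | y ∈ P c ∧ cj y U = U} : Set G) := ⟨hy, hyU⟩
  rw [← heq] at h1
  exact key y hy h1.2 v hv

/-- From single layers to the whole orbit. -/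
theorem ab_fix [Finite G] (T : MTow P p n) {b c : ℕ} (hbn : b < n) (hcb : c < b)
    (U : Subgroup G)
    (H : ∀ e, c < e → e < b → ∀ y ∈ P c, cj y U = U → ∀ v ∈ P e, cj y (cj v U) = cj v U) :
    ∀ y ∈ P c, cj y U = U → ∀ m ∈ NN P (c + 1) b, cj y (cj m U) = cj m U := by
  have hcn : c < n := by omega
  have hSY : stabSub (P c) U ≤ P c := fun z hz => hz.1
  have key : ∀ d e, e + d = b → c < e → ∀ y ∈ P c, cj y U = U →
      ∀ m ∈ NN P e b, cj y (cj m U) = cj m U := by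
    intro d
    induction d with
    | zero =>
      intro e he hce y hy hyU m hm
      have h1 : NN P e b = ⊥ := by
        rw [show e = b by omega]
        exact nn_self P b
      rw [h1, Subgroup.mem_bot] at hm
      rw [hm, cj_one, hyU]
    | succ d ih =>
      intro e he hce y hy hyU m hm
      have hen : e < n := by omega
      obtain ⟨m', hm', v, hv, rfl⟩ := nn_split T.toWTow (c := e) (d := b) (by omega) (by omega) hm
      obtain ⟨c', hc', hcc, hcv⟩ := fixrep_cj (T.prime c hcn) (P e) (stabSub (P c) U) U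
        ((T.pgrp c hcn).to_le hSY) (nd T hce.ne' hen hcn le_rfl)
        ((p_nz T.toWTow hce.le hen).mono hSY) (fun z hz => hz.2) hv
        (fun z hz => H e hce (by omega) z hz.1 hz.2 v hv)
      have hc'b : c' ∈ Gs P b := le_gs P (by omega) hc'
      have hm'' : c'⁻¹ * m' * c' ∈ NN P (e + 1) b := by
        have := nn_nz T.toWTow (c := e + 1) (d := b) (by omega) (by omega) c'⁻¹ (inv_mem hc'b)
          m' hm'
        simpa using this
      have e1 : cj (m' * v) U = cj c' (cj (c'⁻¹ * m' * c') U) := by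
        rw [cj_mul m' v, hcv, ← cj_mul, ← cj_mul]
        congr 1
        group
      have e2 := ih (e + 1) (by omega) (by omega) y hy hyU _ hm''
      rw [e1, ← cj_mul y c', hcc y ⟨hy, hyU⟩, cj_mul c' y, e2]
  exact fun y hy hyU m hm => key (b - (c + 1)) (c + 1) (by omega) (by omega) y hy hyU m hm

end Pool.Agent.Work.MP_b44cb1_al.BL
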