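import Pool.Agent.Work.MP_b44cb1_al.Full.L.Cop
import Pool.Agent.Work.MP_b44cb1_al.TowerBasic

/-!
# Block L: elementary facts on weak and minimal towers
-/

set_option autoImplicit false

namespace Pool.Agent.Work.MP_b44cb1_al.BL

open Subgroup
open scoped commutatorElement

variable {G : Type*} [Group G] {P : ℕ → Subgroup G} {p : ℕ → ℕ} {n : ℕ}

theorem gs_nz (T : WTow P p n) {i j : ℕ} (hji : j ≤ i) (hi : i < n) : Nz (Gs P j) (P i) :=
  (T.norm i hi).mono (gs_mono P hji)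

theorem gs_nz_self (T : WTow P p n) {i : ℕ} (hi : i < n) : Nz (Gs P (i + 1)) (P i) := by
  rw [nz_iff, gs_succ]
  exact sup_le (nz_iff.1 (T.norm i hi)) (nz_iff.1 (nz_self (P i)))

theorem p_nz (T : WTow P p n) {i j : ℕ} (hji : j ≤ i) (hi : i < n) : Nz (P j) (P i) := by
  rcases hji.lt_or_eq with h | rfl
  · exact (T.norm i hi).mono (le_gs P h)
  · exact nz_self _

theorem mem_gs_succ (T : WTow P p n) {i : ℕ} (hi : i < n) {x : G}
    (hx : x ∈ Gs P (i + 1)) : ∃ g ∈ Gs P i, ∃ v ∈ P i, x = g * v := by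
  rw [gs_succ, ← SetLike.mem_coe, coe_mul_of_left_le_normalizer_right _ _
    (nz_iff.1 (T.norm i hi))] at hx
  obtain ⟨g, hg, v, hv, hgv⟩ := hx
  exact ⟨g, hg, v, hv, hgv.symm⟩

private theorem nn_succ_top (P : ℕ → Subgroup G) {c d : ℕ} (hcd : c ≤ d) :
    NN P c (d + 1) = NN P c d ⊔ P d := by
  unfold NN
  rw [Nat.Ico_succ_right_eq_insert_Ico hcd, Finset.iSup_insert, sup_comm]

private theorem nn_succ_bot (P : ℕ → Subgroup G) {c d : ℕ} (hcd : c < d) :
    NN P c d = NN P (c + 1) d ⊔ P c := by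
  unfold NN
  rw [← Finset.insert_Ico_add_one_left_eq_Ico hcd, Finset.iSup_insert, sup_comm]

theorem nn_self (P : ℕ → Subgroup G) (c : ℕ) : NN P c c = ⊥ := by
  unfold NN
  simp

theorem nn_nz (T : WTow P p n) {c d : ℕ} (hcd : c ≤ d) (hd : d ≤ n) :
    Nz (Gs P d) (NN P c d) := by
  induction d, hcd using Nat.le_induction with
  | base =>
    rw [nn_self]
    intro g _ x hx
    rw [Subgroup.mem_bot] at hx ⊢
    rw [hx]
    simp
  | succ d hcd ih =>
    have hdn : d < n := by omega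
    have ih := ih (by omega)
    have h1 : Nz (Gs P d) (NN P c (d + 1)) := by
      rw [nn_succ_top P hcd]
      exact ih.sup (T.norm d hdn)
    have h2 : Nz (P d) (NN P c (d + 1)) := by
      have hsub : P d ≤ NN P c (d + 1) := le_nn P hcd (Nat.lt_succ_self d)
      exact (nz_self (NN P c (d + 1))).mono hsub
    rw [nz_iff] at *
    rw [gs_succ]
    exact sup_le h1 h2

theorem nn_split (T : WTow P p n) {c d : ℕ} (hcd : c < d) (hd : d ≤ n) {x : G}
    (hx : x ∈ NN P c d) : ∃ m ∈ NN P (c + 1) d, ∃ v ∈ P c, x = m * v := by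
  have h1 : P c ≤ normalizer (NN P (c + 1) d : Set G) := by
    rw [← nz_iff]
    exact (nn_nz T (c := c + 1) hcd hd).mono (le_gs P hcd)
  rw [nn_succ_bot P hcd, ← SetLike.mem_coe, coe_mul_of_right_le_normalizer_left _ _ h1] at hx
  obtain ⟨m, hm, v, hv, hmv⟩ := hx
  exact ⟨m, hm, v, hv, hmv.symm⟩

theorem p_ne [Finite G] (T : MTow P p n) {i j : ℕ} (hji : j < i) (hi : i < n) :
    p j ≠ p i := by
  intro h
  have hj : j < n := hji.trans hi
  haveI : Fact (p j).Prime := ⟨T.prime j hj⟩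
  have h2 : p j ∣ Nat.card (P j) := by
    obtain ⟨k, hk⟩ := IsPGroup.iff_card.1 (T.pgrp j hj)
    rcases Nat.eq_zero_or_pos k with h0 | h0
    · exfalso
      rw [h0, pow_zero] at hk
      exact T.nontriv j hj (Subgroup.card_eq_one.1 hk)
    · rw [hk]
      exact dvd_pow_self _ (by omega)
  apply T.cop i hi
  rw [← h]
  exact h2.trans (Subgroup.card_dvd_of_le (le_gs P hji))

/-- The order of a subgroup of `P i` is prime to `p j`, `i ≠ j`. -/
theorem nd [Finite G] (T : MTow P p n) {i j : ℕ} (hij : i ≠ j) (hi : i < n) (hj : j < n)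
    {X : Subgroup G} (hX : X ≤ P i) : ¬ p j ∣ Nat.card X := by
  refine not_dvd_card (T.prime i hi) (T.prime j hj) ?_ ((T.pgrp i hi).to_le hX)
  rcases Nat.lt_or_gt_of_ne hij with h | h
  · exact (p_ne T h hj).symm
  · exact p_ne T h hi

theorem kr_nz (T : WTow P p n) {i : ℕ} (hi : i + 1 < n) : Nz (Gs P (i + 1)) (Kr P i) := by
  refine (gs_nz_self T (by omega)).inf ?_
  intro g hg d hd
  rw [mem_centralizer_iff] at *
  intro x hx
  have h1 := T.norm (i + 1) hi g⁻¹ (inv_mem hg) x hx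
  have h2 := hd _ h1
  simp only [inv_inv] at h2
  calc x * (g * d * g⁻¹) = g * (g⁻¹ * x * g * d) * g⁻¹ := by group
    _ = g * (d * (g⁻¹ * x * g)) * g⁻¹ := by rw [h2]
    _ = g * d * g⁻¹ * x := by group

/-- `{x ∈ X : ⁅x, A⁆ ⊆ J}`. -/
def cenMod (X A J : Subgroup G) (h : Nz X J) : Subgroup G where
  carrier := {x | x ∈ X ∧ ∀ a ∈ A, ⁅x, a⁆ ∈ J}
  one_mem' := ⟨one_mem _, fun a _ => by simp⟩
  mul_mem' := by
    rintro x y ⟨hx, hx'⟩ ⟨hy, hy'⟩
    refine ⟨mul_mem hx hy, fun a ha => ?_⟩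
    have e : ⁅x * y, a⁆ = x * ⁅y, a⁆ * x⁻¹ * ⁅x, a⁆ := by
      simp only [commutatorElement_def]
      group
    rw [e]
    exact mul_mem (h x hx _ (hy' a ha)) (hx' a ha)
  inv_mem' := by
    rintro x ⟨hx, hx'⟩
    refine ⟨inv_mem hx, fun a ha => ?_⟩
    have e : ⁅x⁻¹, a⁆ = (x⁻¹ * ⁅x, a⁆ * x⁻¹⁻¹)⁻¹ := by
      simp only [commutatorElement_def]
      group
    rw [e]
    exact inv_mem (h x⁻¹ (inv_mem hx) _ (hx' a ha))

theorem mem_cenMod {X A J : Subgroup G} {h : Nz X J} {x : G} :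
    x ∈ cenMod X A J h ↔ x ∈ X ∧ ∀ a ∈ A, ⁅x, a⁆ ∈ J := Iff.rfl

theorem cenMod_le {X A J : Subgroup G} {h : Nz X J} : cenMod X A J h ≤ X := fun _ hx => hx.1

theorem cenMod_nz {L X A J : Subgroup G} (h : Nz X J) (hX : Nz L X) (hA : Nz L A)
    (hJ : Nz L J) : Nz L (cenMod X A J h) := by
  rintro g hg x ⟨hx, hx'⟩
  refine ⟨hX g hg x hx, fun a ha => ?_⟩
  have h1 := hA g⁻¹ (inv_mem hg) a ha
  have h2 := hJ g hg _ (hx' _ h1)
  have e : ⁅g * x * g⁻¹, a⁆ = g * ⁅x, g⁻¹ * a * g⁻¹⁻¹⁆ * g⁻¹ := by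
    simp only [commutatorElement_def]
    group
  rw [e]
  exact h2

theorem comm_symm_mem {J : Subgroup G} {x y : G} (h : ⁅x, y⁆ ∈ J) : ⁅y, x⁆ ∈ J := by
  rw [← commutatorElement_inv]
  exact inv_mem h

/-- If a `Gs P (b+1)`-invariant subgroup `A` of `P b` fixes some nontrivial element of `V_(b+1)`
then it centralises `P (b+1)`. -/
theorem irr_cen [Finite G] (T : MTow P p n) {b : ℕ} (hb : b + 1 < n) {A : Subgroup G}
    (hA : A ≤ P b) (hn : Nz (Gs P (b + 1)) A) {w : G} (hw : w ∈ P (b + 1))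
    (hwF : w ∉ Fr (p (b + 1)) (P (b + 1)))
    (hc : ∀ a ∈ A, ⁅w, a⁆ ∈ Fr (p (b + 1)) (P (b + 1))) : A ≤ Kr P b := by
  have hF : Nz (P (b + 1)) (Fr (p (b + 1)) (P (b + 1))) := nz_fr _ (nz_self _)
  have h1 := T.irr (b + 1) hb (cenMod (P (b + 1)) A _ hF) cenMod_le
    (cenMod_nz hF (T.norm _ hb) hn (nz_fr _ (T.norm _ hb)))
  rcases h1 with h1 | h1
  · have h2 := trivFr (T.prime _ hb) (T.prime b (by omega)) (p_ne T (Nat.lt_succ_self b) hb)
      (P (b + 1)) A (T.pgrp _ hb) ((T.pgrp b (by omega)).to_le hA)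
      ((p_nz T.toWTow (Nat.le_succ b) hb).mono hA) (fun g hg x hx => by
        rw [← h1] at hx
        exact comm_symm_mem (hx.2 g hg))
    intro a ha
    refine ⟨hA ha, mem_centralizer_iff.2 fun x hx => (h2 a ha x hx).symm⟩
  · exact absurd (h1 ⟨hw, hc⟩) hwF

end Pool.Agent.Work.MP_b44cb1_al.BL
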